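import Pool.Agent.H94.EGC.S1

/-!
# EGC, module TR1: elimination of linear forms
-/

set_option autoImplicit false

namespace Pool.EGC

open MvPolynomial Pool.EGH

namespace TR1x

variable {K : Type} [Field K]

theorem xmem {N : ℕ} (i : Fin N) : (X i : PR K N) ∈ fm K N 1 := isHomogeneous_X K i

theorem fr1 (N : ℕ) : Module.finrank K ↥(fm K N 1) = N := by
  have h : LinearIndependent K (X : Fin N → PR K N) := linearIndependent_X (Fin N) K
  have h2 := finrank_span_eq_card h
  rw [← homogeneousSubmodule_one_eq_span_X, Fintype.card_fin] at h2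
  exact h2

theorem ext1 {N n : ℕ} (g : ↥(fm K N 1) →ₗ[K] PR K n) (l : ↥(fm K N 1)) :
    aeval (fun i => g ⟨X i, xmem i⟩) (l : PR K N) = g l := by
  have hl : (l : PR K N) ∈ Submodule.span K (Set.range (X : Fin N → PR K N)) := by
    rw [← homogeneousSubmodule_one_eq_span_X]; exact l.2
  obtain ⟨c, hc⟩ := (Submodule.mem_span_range_iff_exists_fun K).1 hl
  have h2 : l = ∑ i, c i • (⟨X i, xmem i⟩ : ↥(fm K N 1)) := by
    apply Subtype.ext
    rw [AddSubmonoidClass.coe_finsetSum]
    exact hc.symm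
  rw [← hc, map_sum]
  conv_rhs => rw [h2, map_sum]
  refine Finset.sum_congr rfl (fun i _ => ?_)
  rw [map_smul, map_smul, aeval_X]

/-- The main construction. -/
theorem constr {N n : ℕ} (L : Submodule K (PR K N)) (hL : L ≤ fm K N 1)
    (hk : Module.finrank K L + n = N) :
    ∃ π : PR K N →ₐ[K] PR K n, Gs π ∧ RingHom.ker π = Ideal.span (L : Set (PR K N)) := by
  have hfin : Module.Finite K ↥(fm K N 1) := by
    rw [Module.Finite.iff_fg]; exact homogeneousSubmodule_fg (Fin N) K 1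
  let L' : Submodule K ↥(fm K N 1) := L.comap (fm K N 1).subtype
  have hL' : Module.finrank K L' = Module.finrank K L :=
    LinearEquiv.finrank_eq (Submodule.comapSubtypeEquivOfLe hL)
  have hq : Module.finrank K (↥(fm K N 1) ⧸ L') = Module.finrank K ↥(fm K n 1) := by
    have h1 := Submodule.finrank_quotient_add_finrank L'
    rw [fr1 N, hL'] at h1
    rw [fr1 n]
    omega
  have hfin2 : Module.Finite K ↥(fm K n 1) := by
    rw [Module.Finite.iff_fg]; exact homogeneousSubmodule_fg (Fin n) K 1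
  let e := LinearEquiv.ofFinrankEq (↥(fm K N 1) ⧸ L') ↥(fm K n 1) hq
  let ψ : ↥(fm K N 1) →ₗ[K] ↥(fm K n 1) := e.toLinearMap ∘ₗ L'.mkQ
  have hψs : Function.Surjective ψ := e.surjective.comp L'.mkQ_surjective
  have hψk : ∀ l, ψ l = 0 ↔ (l : PR K N) ∈ L := by
    intro l
    have h1 : ψ l = e (L'.mkQ l) := rfl
    rw [h1, LinearEquiv.map_eq_zero_iff, Submodule.mkQ_apply, Submodule.Quotient.mk_eq_zero]
    exact Iff.rfl
  obtain ⟨σ, hσ⟩ := ψ.exists_rightInverse_of_surjective (LinearMap.range_eq_top.2 hψs)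
  have hσ' : ∀ w, ψ (σ w) = w := fun w => by
    have := congrArg (fun g => g w) hσ
    exact this
  let π : PR K N →ₐ[K] PR K n := aeval (fun i => ((fm K n 1).subtype ∘ₗ ψ) ⟨X i, xmem i⟩)
  let θ : PR K n →ₐ[K] PR K N := aeval (fun i => ((fm K N 1).subtype ∘ₗ σ) ⟨X i, xmem i⟩)
  have hπ : ∀ l : ↥(fm K N 1), π (l : PR K N) = (ψ l : PR K n) := fun l =>
    ext1 ((fm K n 1).subtype ∘ₗ ψ) l
  have hθ : ∀ w : ↥(fm K n 1), θ (w : PR K n) = (σ w : PR K N) := fun w =>
    ext1 ((fm K N 1).subtype ∘ₗ σ) w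
  have hdiff : ∀ f : PR K N, θ (π f) - f ∈ Ideal.span (L : Set (PR K N)) := by
    intro f
    have key : ((Ideal.Quotient.mkₐ K (Ideal.span (L : Set (PR K N)))).comp θ).comp π =
        Ideal.Quotient.mkₐ K (Ideal.span (L : Set (PR K N))) := by
      apply MvPolynomial.algHom_ext
      intro i
      rw [AlgHom.comp_apply, AlgHom.comp_apply]
      have h1 : θ (π (X i)) = (σ (ψ ⟨X i, xmem i⟩) : PR K N) := by
        rw [← hθ, ← hπ]
      rw [h1]
      change Ideal.Quotient.mk _ _ = Ideal.Quotient.mk _ _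
      rw [Ideal.Quotient.eq]
      apply Ideal.subset_span
      have h2 : ψ (σ (ψ ⟨X i, xmem i⟩) - ⟨X i, xmem i⟩) = 0 := by
        rw [map_sub, hσ', sub_self]
      exact (hψk _).1 h2
    have h2 := congrArg (fun g => g f) key
    simp only [AlgHom.comp_apply] at h2
    change Ideal.Quotient.mk _ _ = Ideal.Quotient.mk _ _ at h2
    rwa [Ideal.Quotient.eq] at h2
  refine ⟨π, ⟨?_, ?_⟩, le_antisymm ?_ ?_⟩
  · intro g
    have h1 : (π.comp θ) = AlgHom.id K (PR K n) := by
      apply MvPolynomial.algHom_ext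
      intro i
      rw [AlgHom.comp_apply]
      have h2 : θ (X i) = (σ ⟨X i, xmem i⟩ : PR K N) := by rw [← hθ]
      rw [h2, hπ, hσ']
      rfl
    exact ⟨θ g, by
      have := congrArg (fun h => h g) h1
      exact this⟩
  · intro i f hf
    have h1 : (π f).IsHomogeneous (1 * i) :=
      MvPolynomial.IsHomogeneous.aeval hf _ (fun j => (ψ ⟨X j, xmem j⟩).2)
    rw [one_mul] at h1
    exact h1
  · intro f hf
    have h3 : π f = 0 := hf
    have := hdiff f
    rw [h3, map_zero, zero_sub] at this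
    exact neg_mem_iff.1 this
  · rw [Ideal.span_le]
    intro l hl
    change π l = 0
    have h1 := hπ ⟨l, hL hl⟩
    have h2 : ψ ⟨l, hL hl⟩ = 0 := (hψk _).2 hl
    rw [h2] at h1
    exact h1

end TR1x

/-- TR1. -/
theorem t_tr1 (h1 : LSHStmt) : TR1Stmt := by
  intro K _ N k n J hJ hk
  obtain ⟨L, hL, hfr, rfl⟩ := h1 K N k J hJ
  exact TR1x.constr L hL (by rw [hfr]; exact hk)

end Pool.EGC
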