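import Pool.Agent.H94.EGC.S1

/-!
# EGC, module TR3: the image of an ideal under a surjection of polynomial rings
-/

set_option autoImplicit false

namespace Pool.EGC

open MvPolynomial Pool.EGH

namespace TR3x

variable {K : Type} [Field K] {N n : ℕ}

theorem rn (g : PR K N →ₗ[K] PR K n) (V : Submodule K (PR K N)) [Module.Finite K V] :
    Module.finrank K V = Module.finrank K ↥(V.map g) +
      Module.finrank K ↥(V ⊓ LinearMap.ker g) := by
  have h := LinearMap.finrank_range_add_finrank_ker (g.domRestrict V)
  rw [LinearMap.range_domRestrict, LinearMap.ker_domRestrict] at h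
  have h2 := (Submodule.equivMapOfInjective V.subtype V.injective_subtype
    ((LinearMap.ker g).comap V.subtype)).finrank_eq
  rw [Submodule.map_comap_subtype] at h2
  rw [h2] at h
  exact h.symm

theorem hc (π : PR K N →ₐ[K] PR K n) (hπ : Gs π) (f : PR K N) (d : ℕ) :
    homogeneousComponent d (π f) = π (homogeneousComponent d f) := by
  have h1 : π f = ∑ i ∈ Finset.range (f.totalDegree + 1), π (homogeneousComponent i f) := by
    rw [← map_sum, sum_homogeneousComponent]
  have h2 : ∀ i, homogeneousComponent d (π (homogeneousComponent i f)) =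
      if d = i then π (homogeneousComponent i f) else 0 := fun i =>
    homogeneousComponent_of_mem (hπ.2 i _ (homogeneousComponent_mem i f))
  rw [h1, map_sum, Finset.sum_congr rfl (fun i _ => h2 i), Finset.sum_ite_eq]
  split_ifs with h
  · rfl
  · rw [homogeneousComponent_eq_zero d f (by
      rw [Finset.mem_range] at h; omega), map_zero]

theorem main (π : PR K N →ₐ[K] PR K n) (I : Ideal (PR K N)) (hπ : Gs π)
    (hk : RingHom.ker π ≤ I) (hI : Hg I) :
    Hg (I.map π) ∧ ∀ i, hf (I.map π) i = hf I i := by
  have hm : ∀ g, g ∈ I.map π ↔ ∃ f ∈ I, π f = g := by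
    intro g
    have := Ideal.mem_map_iff_of_surjective (π : PR K N →+* PR K n) (I := I) hπ.1 (y := g)
    exact this
  refine ⟨?_, ?_⟩
  · intro g hg d
    obtain ⟨f, hf, rfl⟩ := (hm g).1 hg
    rw [hc π hπ]
    exact (hm _).2 ⟨_, hI f hf d, rfl⟩
  · intro i
    have hfin : Module.Finite K ↥(fm K N i) := by
      rw [Module.Finite.iff_fg]; exact homogeneousSubmodule_fg (Fin N) K i
    have hfin2 : Module.Finite K ↥(I.restrictScalars K ⊓ fm K N i) :=
      Submodule.finiteDimensional_of_le inf_le_right
    have e1 : (fm K N i).map π.toLinearMap = fm K n i := by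
      apply le_antisymm
      · rintro _ ⟨f, hf, rfl⟩
        exact hπ.2 i f hf
      · intro g hg
        obtain ⟨f, rfl⟩ := hπ.1 g
        refine ⟨homogeneousComponent i f, homogeneousComponent_mem i f, ?_⟩
        have h1 := hc π hπ f i
        rw [homogeneousComponent_of_mem hg, if_pos rfl] at h1
        exact h1.symm
    have e2 : (I.restrictScalars K ⊓ fm K N i).map π.toLinearMap =
        (I.map π).restrictScalars K ⊓ fm K n i := by
      apply le_antisymm
      · rintro _ ⟨f, hf, rfl⟩
        exact ⟨(hm _).2 ⟨f, hf.1, rfl⟩, hπ.2 i f hf.2⟩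
      · intro g hg
        obtain ⟨f, hf, rfl⟩ := (hm g).1 hg.1
        refine ⟨homogeneousComponent i f, ⟨hI f hf i, homogeneousComponent_mem i f⟩, ?_⟩
        have h1 := hc π hπ f i
        rw [homogeneousComponent_of_mem hg.2, if_pos rfl] at h1
        exact h1.symm
    have e3 : (I.restrictScalars K ⊓ fm K N i) ⊓ LinearMap.ker π.toLinearMap =
        fm K N i ⊓ LinearMap.ker π.toLinearMap := by
      apply le_antisymm
      · exact inf_le_inf_right _ inf_le_right
      · intro f hf
        exact ⟨⟨hk hf.2, hf.1⟩, hf.2⟩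
    have r1 := rn π.toLinearMap (fm K N i)
    have r2 := rn π.toLinearMap (I.restrictScalars K ⊓ fm K N i)
    rw [e1] at r1
    rw [e2, e3] at r2
    unfold hf
    omega

end TR3x

/-- TR3. -/
theorem t_tr3 : TR3Stmt := by
  intro K _ N n π I hπ hk hI
  exact TR3x.main π I hπ hk hI

end Pool.EGC
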